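import Pool.Agent.KS6_98.Orb.Final

/-!
# Orbit arrangements: elements of every order in the homology of `Π_λ`

For all `m ≥ 2` and all `n ≥ 8 m + 23` the partition `λ = (n - 8 m - 14, 8, 6, 4, ..., 4, 2, 2)` of
`n`, with `2 m - 1` parts equal to `4`, is such that the reduced homology in dimension `2 m + 1` of
the order complex of the proper part of `Π_λ` has an element of order exactly `m`.

The definitions are in `Pool.Agent.KS6_98.Orb.Defs`:
* `blocks s`, `shape s`: the blocks of a set partition `s` (an equivalence relation on `Fin n`) and
  the multiset of their sizes;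
* `PiLam lam`: the joins of set partitions of shape `lam`;
* `ProperPart lam`: the elements of `PiLam lam` different from `⊥` and `⊤`;
* `Simplex P k`: strictly increasing lists of length `k` in the poset `P`;
* `boundary P k`: the boundary map of the augmented simplicial chain complex with integer
  coefficients;
* `ElementOfOrder P i m`: there is a cycle in dimension `i` of which exactly the multiples with
  coefficients divisible by `m` are boundaries; by `elementOfOrder_iff` this says that cycles
  modulo boundaries in dimension `i` have an element of additive order `m`.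
-/

set_option autoImplicit false

namespace Pool.Agent.Results.MP_5a3b5e_co.TorsionEveryOrder

open Pool.Agent.KS6_98.Orb

/-- Sanity check: two successive boundary maps compose to zero. -/
theorem boundary_comp {n : ℕ} (lam : n.Partition) (k : ℕ)
    (x : Simplex (ProperPart lam) (k + 2) →₀ ℤ) :
    boundary (ProperPart lam) k (boundary (ProperPart lam) (k + 1) x) = 0 :=
  boundary_boundary_sub _ k x

/-- Sanity check: the meaning of `ElementOfOrder` in terms of the homology group. -/
theorem order_check {n : ℕ} (lam : n.Partition) (i m : ℕ) :
    ElementOfOrder (ProperPart lam) i m ↔ ∃ x : RedHomology (ProperPart lam) i, addOrderOf x = m :=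
  elementOfOrder_iff _ i m

/-- Sanity check: the partition with one block is the greatest element of `Π_λ` when all parts of
`λ` are at least `2` and some set partition has shape `λ`. -/
theorem top_mem {n : ℕ} {lam : n.Partition} (h2 : ∀ k ∈ lam.parts, 2 ≤ k) {s : Setoid (Fin n)}
    (hs : shape s = lam.parts) : (⊤ : Setoid (Fin n)) ∈ PiLam lam := mem_PiLam_of_le h2 hs le_top

/-- **The homology of `Π_λ` has elements of every finite order**: for every `m ≥ 2` and every
`n ≥ 8 m + 23` there is a partition `λ` of `n`, all of whose parts are at least `2`, such that the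
reduced integral homology of `Π_λ` in dimension `2 m + 1` has an element of order exactly `m`. -/
theorem result (m : ℕ) (hm : 2 ≤ m) (n : ℕ) (hn : 8 * m + 23 ≤ n) :
    ∃ lam : n.Partition,
      lam.parts = (n - (8 * m + 14)) ::ₘ 8 ::ₘ 6 ::ₘ 2 ::ₘ 2 ::ₘ
        Multiset.replicate (2 * m - 1) 4 ∧
      ElementOfOrder (ProperPart lam) (2 * m + 1) m := by
  obtain ⟨N, rfl⟩ : ∃ N, n = 8 * m + 14 + N := ⟨n - (8 * m + 14), by omega⟩
  have hN : 9 ≤ N := by omega
  refine ⟨lamP m N (by omega) hN, ?_, ?_⟩
  · rw [Nat.add_sub_cancel_left]
    rfl
  · exact main (by omega) hN rfl _ rfl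

end Pool.Agent.Results.MP_5a3b5e_co.TorsionEveryOrder
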